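import Pool.Agent.N929.EZ.Poly2

/-!
Self-avoiding polygons on the square lattice: regularity to all orders, in the perimeter, of the
number of polygons.
-/

set_option autoImplicit false

open Filter Topology

namespace Pool.Agent.Results.MP_376faf_co.AllOrders

/-- the number of `n`-step self-avoiding walks on `ℤ²` started at the origin -/
noncomputable def c (n : ℕ) : ℕ :=
  Nat.card {f : Fin (n + 1) → ℤ × ℤ // f 0 = 0 ∧ Function.Injective f ∧
    ∀ i : Fin n, |(f i.succ).1 - (f i.castSucc).1| + |(f i.succ).2 - (f i.castSucc).2| = 1}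

/-- the number of self-avoiding polygons of perimeter `2n` on `ℤ²` up to translation: the number
of injective nearest-neighbour closed loops `f : ℤ/2n → ℤ²` with `f 0 = 0`, divided by `4n` (the
choices of the starting point and of the orientation) -/
noncomputable def p (n : ℕ) : ℝ :=
  ((Nat.card {f : ZMod (2*n) → ℤ × ℤ // f 0 = 0 ∧ Function.Injective f ∧
    ∀ i : ZMod (2*n), |(f (i+1)).1 - (f i).1| + |(f (i+1)).2 - (f i).2| = 1} : ℕ) : ℝ)
    / (4 * (n:ℝ))

lemma c_eq (n : ℕ) : (c n : ℝ) = H981.cr' n := by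
  rw [H981.cr'_eq]
  unfold c H981.C H981.IsSAW
  congr 1
  apply Nat.card_congr
  apply Equiv.subtypeEquivRight
  intro f
  constructor
  · rintro ⟨h0, h1, h2⟩
    exact ⟨h0, h2, h1⟩
  · rintro ⟨h0, h2, h1⟩
    exact ⟨h0, h1, h2⟩

lemma p_eq (n : ℕ) : p n = H981.PP n := rfl

/-- **Theorem.** Let `μ` be the connective constant of `ℤ²`.  For every `r ≥ 1` there is a constant
`K` such that for all `n ≥ 2` the `r`-th difference of `log (p_{2n} / μ^(2n))` is at most
`K (log n / √n)^r` in absolute value.  (For `r ≥ 2` it is the `r`-th difference of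
`log p_{2n}`.) -/
theorem result : ∃ μ : ℝ, 0 < μ ∧
    Tendsto (fun n : ℕ => (c n : ℝ) ^ ((1:ℝ) / (n : ℝ))) atTop (𝓝 μ) ∧
    ∀ r : ℕ, 1 ≤ r → ∃ K : ℝ, ∀ n : ℕ, 2 ≤ n →
      |∑ i ∈ Finset.range (r + 1), (-1 : ℝ) ^ i * (r.choose i : ℝ) *
        Real.log (p (n + i) / μ ^ (2 * (n + i)))| ≤
        K * (Real.log n / Real.sqrt n) ^ r := by
  refine ⟨H981.mu, H981.mu_pos, ?_, fun r hr => ?_⟩
  · simp only [c_eq]
    exact H981.tendsto_root
  · obtain ⟨C1, hC1, h1⟩ := Pool.Agent.N929.EZ.gen_poly_one r hr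
    obtain ⟨C2, hC2, h2⟩ := Pool.Agent.N929.EZ.log_nat r hr
    refine ⟨C1 * 2 ^ r + C2, fun n hn => ?_⟩
    have e1 := h1 (2 * n - 1) (by omega) (by omega)
    have e2 := h2 n hn
    have hmu := H981.mu_pos
    have hn0 : (0 : ℝ) < n := by exact_mod_cast (by omega : 0 < n)
    have e3 : ∑ i ∈ Finset.range (r + 1), (-1 : ℝ) ^ i * (r.choose i : ℝ) *
        Real.log (p (n + i) / H981.mu ^ (2 * (n + i))) =
        ∑ i ∈ Finset.range (r + 1), (-1 : ℝ) ^ i * (r.choose i : ℝ) *
          Real.log (((Pool.Agent.H739K.KP (2 * n - 1 + 2 * i)).card : ℝ) /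
            H981.mu ^ (2 * n - 1 + 2 * i)) -
        ∑ i ∈ Finset.range (r + 1), (-1 : ℝ) ^ i * (r.choose i : ℝ) * Real.log ((n : ℝ) + i) -
        ∑ i ∈ Finset.range (r + 1), (-1 : ℝ) ^ i * (r.choose i : ℝ) *
          (Real.log 4 + Real.log H981.mu) := by
      rw [← Finset.sum_sub_distrib, ← Finset.sum_sub_distrib]
      refine Finset.sum_congr rfl (fun i _ => ?_)
      have a1 : 2 * n - 1 + 2 * i = 2 * (n + i) - 1 := by omega
      have a2 := Pool.Agent.N929.EZ.KP_card (N := n + i) (by omega)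
      have a3 := Pool.Agent.N929.EZ.KP_pos (n := 2 * (n + i) - 1) (by omega) (by omega)
      rw [a2] at a3
      have a4 : (0 : ℝ) < ((n + i : ℕ) : ℝ) := by
        push_cast
        positivity
      have a5 : 0 < H981.PP (n + i) := by
        by_contra hcon
        push Not at hcon
        nlinarith
      have a6 : H981.mu ^ (2 * (n + i)) = H981.mu ^ (2 * (n + i) - 1) * H981.mu := by
        rw [← pow_succ]
        congr 1
        omega
      have a7 : 0 < H981.mu ^ (2 * (n + i) - 1) := by positivity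
      rw [a1, a2, p_eq, a6, Real.log_div a5.ne' (by positivity),
        Real.log_mul a7.ne' hmu.ne', Real.log_div (by positivity) a7.ne',
        Real.log_mul (by positivity) a5.ne', Real.log_mul (by norm_num) a4.ne']
      push_cast
      ring
    rw [e3, Pool.Agent.N929.EZ.alt_const hr, sub_zero]
    refine (abs_sub _ _).trans ((add_le_add e1 e2).trans ?_)
    rw [add_mul, mul_assoc]
    have := Pool.Agent.N929.EZ.rate_two hn r
    gcongr

end Pool.Agent.Results.MP_376faf_co.AllOrders
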