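import Pool.Agent.N929.AC.Poly
import Pool.Agent.N353.AC.PRIM

/-!
Self-avoiding polygons on the square lattice: analytic continuation of the generating function
across the circle of convergence.
-/

set_option autoImplicit false

namespace Pool.Agent.Results.MP_376faf_co.AnalyticContinuation

open Filter Topology

/-- `ω` is an `n`-step self-avoiding walk on `ℤ²` started at the origin. -/
def IsSAW (n : ℕ) (ω : Fin (n + 1) → ℤ × ℤ) : Prop :=
  ω 0 = (0, 0) ∧
  (∀ i : Fin n, |(ω i.succ).1 - (ω i.castSucc).1| + |(ω i.succ).2 - (ω i.castSucc).2| = 1) ∧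
  Function.Injective ω

/-- the number of `n`-step self-avoiding walks on `ℤ²` started at the origin -/
noncomputable def c (n : ℕ) : ℕ := {ω | IsSAW n ω}.ncard

/-- the number of self-avoiding polygons of perimeter `2n` on `ℤ²` up to translation: the number
of injective nearest-neighbour closed loops `f : ℤ/2n → ℤ²` with `f 0 = 0`, divided by `4n` (the
choices of the starting point and of the orientation) -/
noncomputable def p (n : ℕ) : ℝ :=
  ((Nat.card {f : ZMod (2*n) → ℤ × ℤ // f 0 = 0 ∧ Function.Injective f ∧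
    ∀ i : ZMod (2*n), |(f (i+1)).1 - (f i).1| + |(f (i+1)).2 - (f i).2| = 1} : ℕ) : ℝ)
    / (4 * (n:ℝ))

/-- `cos (2 arg z)` for `z ≠ 0` -/
noncomputable def cos2 (z : ℂ) : ℝ := (z ^ 2).re / ‖z‖ ^ 2

/-- The domain `|z| < (1 + δ (1 - cos (2 arg z))) / μ`: the disc of convergence enlarged at all
points of the circle of convergence except `±1/μ`. -/
def Dom (μ δ : ℝ) : Set ℂ := {z | μ * ‖z‖ < 1 + δ * (1 - cos2 z)}

open Pool.Agent.N929.AC

lemma p_eq (n : ℕ) : p n = H981.PP n := rfl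

/-- **Theorem.** Let `μ` be the connective constant of `ℤ²`. The generating function
`∑_{n ≥ 2} p_{2n} z^(2n)` of self-avoiding polygons by perimeter extends holomorphically from the
disc `|z| < 1/μ` to the connected open domain `Dom μ δ`, for some `δ > 0`; the domain contains all
points of the circle `|z| = 1/μ` except `z = 1/μ` and `z = -1/μ`. -/
theorem result : ∃ μ : ℝ, 1 ≤ μ ∧
    Tendsto (fun n : ℕ => (c n : ℝ) ^ (1 / (n : ℝ))) atTop (𝓝 μ) ∧
    ∃ δ : ℝ, 0 < δ ∧
    (IsOpen (Dom μ δ) ∧ IsPreconnected (Dom μ δ) ∧ (∀ z : ℂ, μ * ‖z‖ < 1 → z ∈ Dom μ δ) ∧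
      ∀ z : ℂ, μ * ‖z‖ = 1 → z ≠ ((1 / μ : ℝ) : ℂ) → z ≠ ((-(1 / μ) : ℝ) : ℂ) → z ∈ Dom μ δ) ∧
    ∃ F : ℂ → ℂ, DifferentiableOn ℂ F (Dom μ δ) ∧
      ∀ z : ℂ, μ * ‖z‖ < 1 → HasSum (fun n => (p (n + 2) : ℂ) * z ^ (2 * (n + 2))) (F z) := by
  obtain ⟨μ, hμ, hlim, δ, hδ, ⟨d1, d2, d3, d4⟩, F, h1, h2⟩ := poly_ac Pool.Agent.N353.AC.prim
  refine ⟨μ, hμ, hlim, δ, hδ, ⟨d1, d2, d3, fun z hz z1 z2 => ?_⟩, F, h1, fun z hz => ?_⟩
  · refine d4 z hz fun h3 => ?_
    have hn : ‖z‖ = 1 / μ := by field_simp; linarith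
    rw [hn] at h3
    rcases sq_eq_sq_iff_eq_or_eq_neg.1 h3 with h4 | h4
    · exact z1 h4
    · exact z2 (by rw [h4]; push_cast; rfl)
  · have h3 := h2 z hz
    have hinj : Function.Injective (fun n : ℕ => 2 * (n + 2)) := fun a b h => by
      simp only at h
      omega
    rw [← hinj.hasSum_iff] at h3
    · refine (congrArg (fun g => HasSum g (F z)) ?_).mp h3
      funext n
      have e : pv (2 * (n + 2)) = p (n + 2) := by
        unfold pv
        rw [if_pos ⟨by simp, by omega⟩, p_eq]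
        congr 1
        omega
      show (pv (2 * (n + 2)) : ℂ) * z ^ (2 * (n + 2)) = _
      rw [e]
    · intro m hm
      have e : pv m = 0 := by
        unfold pv
        rw [if_neg]
        rintro ⟨he, h4⟩
        apply hm
        obtain ⟨k, hk⟩ := he
        exact ⟨k - 2, by simp only; omega⟩
      rw [e]
      simp

end Pool.Agent.Results.MP_376faf_co.AnalyticContinuation
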