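import Pool.Agent.N932.FL.Poly

/-!
# Rerouting the arcs of a typical self-avoiding polygon

For the uniform self-avoiding polygon `f : ℤ/2n → ℤ²` with perimeter `2n` (with a root and an
orientation, `f 0 = 0`): erase the vertices `f i`, `i ∈ S`, for a nonempty proper subset `S` of
`ℤ/2n`, and count the self-avoiding polygons of perimeter `2n` which agree with `f` outside `S`.
With probability at least `1 - exp (-x)` this number is at least `μ^|S| exp (-(K b(S) log² n + x))`
for all the sets `S` simultaneously, where `b(S)` is the number of the switches between erased and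
kept vertices; it is always at most `μ^|S| exp (K b(S) log² n)`.
-/

set_option autoImplicit false

namespace Pool.Agent.Results.MP_376faf_co.ArcRerouting

open scoped Classical
open Filter Topology

/-- the number of `n`-step self-avoiding walks on `ℤ²` started at the origin -/
noncomputable def c (n : ℕ) : ℕ :=
  Nat.card {f : Fin (n + 1) → ℤ × ℤ // f 0 = 0 ∧ Function.Injective f ∧
    ∀ i : Fin n, |(f i.succ).1 - (f i.castSucc).1| + |(f i.succ).2 - (f i.castSucc).2| = 1}

/-- `f` is a self-avoiding polygon of perimeter `2n` with a root and an orientation: an injective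
closed nearest-neighbour loop. -/
def IsPolygon (n : ℕ) (f : ZMod (2 * n) → ℤ × ℤ) : Prop :=
  Function.Injective f ∧
    ∀ i : ZMod (2 * n), |(f (i + 1)).1 - (f i).1| + |(f (i + 1)).2 - (f i).2| = 1

/-- The rooted polygons with root at the origin; their number is `4n p_{2n}`. -/
def polygons (n : ℕ) : Set (ZMod (2 * n) → ℤ × ℤ) := {f | f 0 = 0 ∧ IsPolygon n f}

/-- the polygons which agree with `f` outside `S` -/
def reroute (n : ℕ) (S : Set (ZMod (2 * n))) (f : ZMod (2 * n) → ℤ × ℤ) :
    Set (ZMod (2 * n) → ℤ × ℤ) :=
  {g | IsPolygon n g ∧ ∀ i, i ∉ S → g i = f i}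

/-- The number of the switches between erased and kept vertices: the number of `i` such that
exactly one of `i - 1` and `i` is in `S` (twice the number of the erased arcs). -/
noncomputable def switches (n : ℕ) (S : Set (ZMod (2 * n))) : ℕ :=
  Set.ncard {i : ZMod (2 * n) | ¬ (i ∈ S ↔ i - 1 ∈ S)}

/-- The probability of `B` for the uniform polygon. -/
noncomputable def prob (n : ℕ) (B : Set (ZMod (2 * n) → ℤ × ℤ)) : ℝ :=
  (polygons n ∩ B).ncard / (polygons n).ncard

/-- **Rerouting the arcs of a typical polygon.** The limit `μ` of `(c_k)^(1/k)` exists, and there is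
`K > 0` such that for all `n ≥ 2`:
(1) for every self-avoiding polygon `f` of perimeter `2n` and every proper subset `S` of its
vertices (given by their indices in `ℤ/2n`), at most `μ^|S| exp (K b(S) (log n)²)` polygons of
perimeter `2n` agree with `f` outside `S`;
(2) for the uniform polygon `f` of perimeter `2n`, with probability at least `1 - exp (-x)`, for ALL
nonempty proper subsets `S` at once at least `μ^|S| exp (-(K b(S) (log n)² + x))` polygons agree
with `f` outside `S`. -/
theorem result : ∃ μ K : ℝ, 0 < μ ∧
    Tendsto (fun k : ℕ => (c k : ℝ) ^ ((1 : ℝ) / (k : ℝ))) atTop (𝓝 μ) ∧ 0 < K ∧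
    ∀ n : ℕ, 2 ≤ n →
      (∀ f ∈ polygons n, ∀ S : Set (ZMod (2 * n)), S ≠ Set.univ →
        ((reroute n S f).ncard : ℝ) ≤
          μ ^ S.ncard * Real.exp (K * switches n S * Real.log n ^ 2)) ∧
      ∀ x : ℝ, prob n {f | ¬ ∀ S : Set (ZMod (2 * n)), S.Nonempty → S ≠ Set.univ →
        μ ^ S.ncard * Real.exp (-(K * switches n S * Real.log n ^ 2 + x)) ≤
          (reroute n S f).ncard} ≤ Real.exp (-x) := by
  obtain ⟨K, hK, h⟩ := Pool.Agent.N932.FL.Poly.main
  refine ⟨H981.mu, K, H981.mu_pos, ?_, hK, fun n hn => ?_⟩
  · have hc : ∀ n, (c n : ℝ) = H981.cr' n := by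
      intro n
      rw [H981.cr'_eq]
      unfold c H981.C H981.IsSAW
      congr 1
      apply Nat.card_congr
      apply Equiv.subtypeEquivRight
      intro f
      constructor
      · rintro ⟨h0, h1, h2⟩
        exact ⟨h0, h2, h1⟩
      · rintro ⟨h0, h2, h1⟩
        exact ⟨h0, h1, h2⟩
    simp only [hc]
    exact H981.tendsto_root
  · obtain ⟨h1, h2⟩ := h n hn
    refine ⟨h1, fun x => ?_⟩
    unfold prob
    refine div_le_of_le_mul₀ (Nat.cast_nonneg _) (Real.exp_pos _).le ?_
    exact h2 x

end Pool.Agent.Results.MP_376faf_co.ArcRerouting
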