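import Pool.Agent.N226.SX.Form
import Pool.Agent.Results.MP_376faf_co.AllOrders

/-!
# Self-avoiding polygons: the asymptotic form and expansions along sparse perimeters
-/

set_option autoImplicit false

namespace Pool.Agent.Results.MP_376faf_co.ExpansionsFromSparseLengths

open Finset Filter Topology Pool.Agent.Results.MP_376faf_co.AllOrders

/-- The expansion `β log n + ∑ a_i n ^ (-θ_i)`. -/
noncomputable def expansion (q : ℕ) (β : ℝ) (a θ : Fin q → ℝ) (n : ℕ) : ℝ :=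
  β * Real.log n + ∑ i, a i * (n : ℝ) ^ (-(θ i))

theorem p_pos {n : ℕ} (hn : 2 ≤ n) : 0 < p n := by
  have a3 := Pool.Agent.N929.EZ.KP_pos (n := 2 * n - 1) (by omega) (by omega)
  rw [Pool.Agent.N929.EZ.KP_card (N := n) (by omega)] at a3
  have hn0 : (0 : ℝ) < n := by exact_mod_cast (by omega : 0 < n)
  rw [p_eq]
  by_contra hcon
  push Not at hcon
  nlinarith

/-- Let `p n` be the number of self-avoiding polygons of perimeter `2 n` on `ℤ²` and `μ` the
connective constant. Let `u_j → ∞` be a sequence of integers with gaps at most `u_j ^ α` for some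
`α < 1 / 2` (for instance `u_j = ⌊j ^ 1.99⌋`).

(1) If `p n ~ C μ ^ (2 n) n ^ β` along `n = u_j`, with any `C > 0` and any real `β`, then
`p n ~ C μ ^ (2 n) n ^ β` for all `n`.

(2) If `log (p n / μ ^ (2 n)) = β log n + ∑ a_i n ^ (-θ_i) + O (n ^ (-M))` along `n = u_j`, a finite
expansion with any real exponents `θ_i ≥ 0` and `M ≥ 0`, then for every `s ≥ 0` and `b < 1 / 2` the
`s`-th difference of `log (p n / μ ^ (2 n)) - β log n - ∑ a_i n ^ (-θ_i)` is `O (n ^ (-M - b s))`,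
for all `n`. For `s = 0` the expansion holds for all `n` with the same error term. -/
theorem result : ∃ μ : ℝ, 0 < μ ∧
    Tendsto (fun n : ℕ => (c n : ℝ) ^ ((1:ℝ) / (n : ℝ))) atTop (𝓝 μ) ∧
    ∀ α : ℝ, 0 ≤ α → α < 1 / 2 → ∀ u : ℕ → ℕ, Tendsto u atTop atTop →
      (∀ᶠ j : ℕ in atTop, (u (j + 1) : ℝ) ≤ u j + (u j : ℝ) ^ α) →
      (∀ C β : ℝ, 0 < C →
        Tendsto (fun j : ℕ => p (u j) / (μ ^ (2 * u j) * (u j : ℝ) ^ β)) atTop (𝓝 C) →
        Tendsto (fun n : ℕ => p n / (μ ^ (2 * n) * (n : ℝ) ^ β)) atTop (𝓝 C)) ∧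
      ∀ (q : ℕ) (β : ℝ) (a θ : Fin q → ℝ), (∀ i, 0 ≤ θ i) → ∀ M : ℝ, 0 ≤ M →
        (∃ C : ℝ, ∀ᶠ j : ℕ in atTop,
          |Real.log (p (u j) / μ ^ (2 * u j)) - expansion q β a θ (u j)| ≤
            C * (u j : ℝ) ^ (-M)) →
        ∀ (s : ℕ) (b : ℝ), 0 ≤ b → b < 1 / 2 → ∃ C : ℝ, ∀ᶠ n : ℕ in atTop,
          |∑ i ∈ range (s + 1), (-1 : ℝ) ^ i * (s.choose i : ℝ) *
            (Real.log (p (n + i) / μ ^ (2 * (n + i))) - expansion q β a θ (n + i))| ≤
            C * (n : ℝ) ^ (-(M + b * s)) := by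
  obtain ⟨μ, hμ, hlim, h⟩ := Pool.Agent.Results.MP_376faf_co.AllOrders.result
  have hreg : Pool.Agent.N226.SX.Reg (1 / 2) (fun n : ℕ => Real.log (p n / μ ^ (2 * n))) := by
    refine Pool.Agent.N226.SX.reg_of_log_one fun r hr => ?_
    obtain ⟨K, hK⟩ := h r hr
    exact ⟨K, (eventually_ge_atTop 2).mono fun n hn => hK n hn⟩
  refine ⟨μ, hμ, hlim, fun α hα0 hα u hu hgap => ⟨fun C β hC hval => ?_,
    fun q β a θ hθ M hM hval s b hb0 hb => ?_⟩⟩
  · have hP : ∀ᶠ n : ℕ in atTop, 0 < p n / μ ^ (2 * n) :=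
      (eventually_ge_atTop 2).mono fun n hn => div_pos (p_pos hn) (pow_pos hμ _)
    have h1 := Pool.Agent.N226.SX.form_one (by norm_num) hP hreg α hα0 hα u hu hgap β C hC
      (by simpa only [div_div] using hval)
    simpa only [div_div] using h1
  · exact Pool.Agent.N226.SX.main_one (by norm_num) hreg
      (Pool.Agent.N226.SX.reg_G1 (1 / 2) (by norm_num) q β a θ hθ) M α hM hα0 hα u hu hgap hval
      s b hb0 hb

end Pool.Agent.Results.MP_376faf_co.ExpansionsFromSparseLengths
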